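import Mathlib
import Pool.Agent.V1149.BT.Ind

set_option autoImplicit false

/-!
# MP_db9399_co: distance-3 matchings in bipartite graphs

`IsTotalColoring G c d` (from `Pool.Agent.V1149.BT.Ext`) says that the colours `c` of the vertices
and `d` of the edges form a total colouring of `G`: adjacent vertices get different colours,
distinct edges with a common end get different colours, and an edge gets a colour different from
the colours of its ends.

The theorem: let `G` be a finite bipartite simple graph, `k ≥ Δ(G) + 2`, `H` a distance-3 matching
in `G` and `c₀, d₀` a total colouring of `H` with `k` colours. Suppose that there are no adjacent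
vertices `x`, `y` of degree `k - 2` outside `H` such that `x` is adjacent to an end of an edge `e`
of `H`, `y` is adjacent to an end of an edge `f` of `H`, and `e` and `f` (possibly equal) have the
same colour. Then the colouring extends to a total colouring of `G` with `k` colours.

For `k = Δ(G) + 2` the hypothesis is satisfied for all `H` and all colourings if the vertices of
maximum degree of `G` are pairwise non-adjacent (for instance if they all lie in one class of the
bipartition), and also if `H` is a distance-4 matching none of whose edges lies in a 4-cycle of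
`G`. For `k ≥ Δ(G) + 3` it is empty.
-/

namespace Pool.Agent.Results.MP_db9399_co.BipartiteDistanceThree

open Pool.Agent.V1149.BT

theorem result (V : Type) [Fintype V] (G H : SimpleGraph V) [DecidableRel G.Adj] (k : ℕ)
    -- `G` is bipartite
    (hG : G.Colorable 2)
    -- there are at least `Δ(G) + 2` colours
    (hk : G.maxDegree + 2 ≤ k)
    -- `H` is a matching of `G`
    (hH : H ≤ G) (hm : ∀ a b b', H.Adj a b → H.Adj a b' → b = b')
    -- vertices of different components of `H` are at distance at least 3 in `G`
    (hd : ∀ a ∈ H.support, ∀ b ∈ H.support, a ≠ b → ¬ H.Adj a b → 3 ≤ G.edist a b)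
    -- `c₀, d₀` is a total colouring of `H`
    (c₀ : V → Fin k) (d₀ : Sym2 V → Fin k) (h₀ : IsTotalColoring H c₀ d₀)
    -- no two adjacent vertices `x`, `y` of degree `k - 2` next to edges of `H` of the same colour
    (hc : ∀ x y a a' b b' : V, G.Adj x y → G.degree x + 2 = k → G.degree y + 2 = k →
      x ∉ H.support → y ∉ H.support → H.Adj a a' → H.Adj b b' → G.Adj x a → G.Adj y b →
      d₀ s(a, a') ≠ d₀ s(b, b')) :
    ∃ (c : V → Fin k) (d : Sym2 V → Fin k), IsTotalColoring G c d ∧
      (∀ a ∈ H.support, c a = c₀ a) ∧ ∀ a b, H.Adj a b → d s(a, b) = d₀ s(a, b) := by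
  classical
  obtain ⟨col⟩ := hG
  have hdeg : ∀ v, (Finset.univ.filter (fun w => G.Adj v w)).card = G.degree v := by
    intro v
    rw [← SimpleGraph.card_neighborFinset_eq_degree, SimpleGraph.neighborFinset_eq_filter]
  have e1 : ∀ a b, G.Adj a b → G.edist a b ≤ 1 := fun a b h => by
    rw [SimpleGraph.edist_eq_one_iff_adj.2 h]
  refine ind G H (fun v => col v = 0) ?_ k ?_ (fun a b h => hH h) hm ?_ ?_ c₀ d₀ h₀ ?_
  · intro a b hab
    have hne := col.valid hab
    constructor
    · intro ha hb
      exact hne (ha.trans hb.symm)
    · intro hb
      by_contra ha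
      apply hne
      have h1 : ∀ t : Fin 2, t ≠ 0 → t = 1 := by decide
      exact (h1 _ ha).trans (h1 _ hb).symm
  · intro v
    refine le_trans (Nat.add_le_add_right ?_ 2) hk
    refine le_trans (le_of_eq ?_) (G.degree_le_maxDegree v)
    rw [← hdeg v]
    congr!
  · intro a ha b hb hab
    by_contra hcon
    have h3 := (hd a ha b hb hab.ne hcon).trans (e1 a b hab)
    norm_num at h3
  · intro a ha b hb w h1 h2 hab
    by_contra hcon
    have h3 := hd a ha b hb hab hcon
    have h4 : G.edist a b ≤ 2 := by
      refine (SimpleGraph.edist_triangle (v := w)).trans ?_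
      refine (add_le_add (e1 a w h1.symm) (e1 w b h2)).trans ?_
      norm_num
    have h5 := h3.trans h4
    norm_num at h5
  · intro x y a a' b b' hxy hx hy
    refine hc x y a a' b b' hxy ?_ ?_
    · rw [← hdeg x, ← hx]
      congr!
    · rw [← hdeg y, ← hy]
      congr!

end Pool.Agent.Results.MP_db9399_co.BipartiteDistanceThree
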