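import Mathlib
import Pool.Agent.V1149.BT.Fin

set_option autoImplicit false

/-!
# MP_db9399_co: distance-7 matchings in bipartite graphs

`IsTotalColoring G c d` (from `Pool.Agent.V1149.BT.Ext`) says that the colours `c` of the vertices
and `d` of the edges form a total colouring of `G`: adjacent vertices get different colours,
distinct edges with a common end get different colours, and an edge gets a colour different from
the colours of its ends.

The theorem: let `G` be a finite bipartite simple graph and `k ≥ Δ(G) + 2`. Let `H` be a subgraph
of `G` in which every vertex has at most one neighbour, so that the vertices of `H` which are not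
isolated, `H.support`, and the edges of `H` form a matching; suppose that vertices of different
components of this matching are at distance at least 7 in `G`. Then every total colouring
`c₀, d₀` of `H` with `k` colours extends to a total colouring of `G` with `k` colours.
-/

namespace Pool.Agent.Results.MP_db9399_co.BipartiteGraphs

open Pool.Agent.V1149.BT

theorem result (V : Type) [Fintype V] (G H : SimpleGraph V) [DecidableRel G.Adj] (k : ℕ)
    -- `G` is bipartite
    (hG : G.Colorable 2)
    -- there are at least `Δ(G) + 2` colours
    (hk : G.maxDegree + 2 ≤ k)
    -- `H` is a matching of `G`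
    (hH : H ≤ G) (hm : ∀ a b b', H.Adj a b → H.Adj a b' → b = b')
    -- vertices of different components of `H` are at distance at least 7 in `G`
    (hd : ∀ a ∈ H.support, ∀ b ∈ H.support, a ≠ b → ¬ H.Adj a b → 7 ≤ G.edist a b)
    -- `c₀, d₀` is a total colouring of `H`
    (c₀ : V → Fin k) (d₀ : Sym2 V → Fin k) (h₀ : IsTotalColoring H c₀ d₀) :
    ∃ (c : V → Fin k) (d : Sym2 V → Fin k), IsTotalColoring G c d ∧
      (∀ a ∈ H.support, c a = c₀ a) ∧ ∀ a b, H.Adj a b → d s(a, b) = d₀ s(a, b) := by
  obtain ⟨col⟩ := hG
  refine far G H (fun v => col v = 0) ?_ k ?_ (fun a b h => hH h) hm hd c₀ d₀ h₀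
  · intro a b hab
    have hne := col.valid hab
    constructor
    · intro ha hb
      exact hne (ha.trans hb.symm)
    · intro hb
      by_contra ha
      apply hne
      have h1 : ∀ t : Fin 2, t ≠ 0 → t = 1 := by decide
      exact (h1 _ ha).trans (h1 _ hb).symm
  · intro v
    refine le_trans (Nat.add_le_add_right ?_ 2) hk
    refine le_trans (le_of_eq ?_) (G.degree_le_maxDegree v)
    unfold nb
    rw [← SimpleGraph.card_neighborFinset_eq_degree, SimpleGraph.neighborFinset_eq_filter]
    congr!

end Pool.Agent.Results.MP_db9399_co.BipartiteGraphs
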