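import Pool.Agent.V11298.EC.Forb

/-!
# Extending precoloured subgraphs of bounded degree to total colourings

Every proper precolouring (with `N` colours) of some vertices of a graph `G` of maximum degree at
most `D` and of the edges of a subgraph of maximum degree at most `h` extends to a total colouring
of `G` with the same `N` colours, if
`N ≥ D + 81 + 34 h + (88 + 40 (⌊log₂ (h + 1)⌋ + 5)²) log (D + 1)`.
-/

set_option autoImplicit false

namespace Pool.Agent.Results.MP_db9399_co.LogarithmicExtension

open Finset

/-- `f` (on the vertices) and `g` (on unordered pairs, read on the edges) form a total colouring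
of `G`: adjacent vertices get different colours, edges with a common endpoint get different
colours, and every edge gets a colour different from the colours of its endpoints. -/
def IsTotalColoring {V α : Type} (G : SimpleGraph V) (f : V → α) (g : Sym2 V → α) : Prop :=
  (∀ u v, G.Adj u v → f u ≠ f v) ∧
    (∀ u v w, G.Adj u v → G.Adj u w → v ≠ w → g s(u, v) ≠ g s(u, w)) ∧
    ∀ u v, G.Adj u v → g s(u, v) ≠ f u

/-- greedy extension of the colours of the vertices -/
theorem vertices {V : Type} [Fintype V] [DecidableEq V] (G H : SimpleGraph V)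
    [DecidableRel G.Adj] [DecidableRel H.Adj] (D h N : ℕ)
    (hD : ∀ v, G.degree v ≤ D) (hh : ∀ v, H.degree v ≤ h) (hN : D + h < N)
    (S : Finset V) (f₀ : V → ℕ) (g₀ : Sym2 V → ℕ) (hf : ∀ v ∈ S, f₀ v < N)
    (h1 : ∀ u ∈ S, ∀ v ∈ S, G.Adj u v → f₀ u ≠ f₀ v)
    (h3 : ∀ u ∈ S, ∀ v, H.Adj u v → g₀ s(u, v) ≠ f₀ u) :
    ∃ s : V → ℕ, (∀ v, s v < N) ∧ (∀ v ∈ S, s v = f₀ v) ∧ (∀ u v, G.Adj u v → s u ≠ s v) ∧
      ∀ u v, H.Adj u v → g₀ s(u, v) ≠ s u := by
  classical
  have key : ∀ T : Finset V, ∃ s : V → ℕ, (∀ v ∈ S ∪ T, s v < N) ∧ (∀ v ∈ S, s v = f₀ v) ∧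
      (∀ u ∈ S ∪ T, ∀ v ∈ S ∪ T, G.Adj u v → s u ≠ s v) ∧
      ∀ u ∈ S ∪ T, ∀ v, H.Adj u v → g₀ s(u, v) ≠ s u := by
    intro T
    induction T using Finset.induction_on with
    | empty =>
      refine ⟨f₀, ?_, fun _ _ => rfl, ?_, ?_⟩
      · simpa using hf
      · simpa using h1
      · simpa using h3
    | insert v T hv ih =>
      obtain ⟨s, hs1, hs2, hs3, hs4⟩ := ih
      by_cases hvS : v ∈ S
      · have he : S ∪ insert v T = S ∪ T := by
          ext x
          simp only [mem_union, mem_insert]
          constructor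
          · rintro (hx | rfl | hx)
            · exact Or.inl hx
            · exact Or.inl hvS
            · exact Or.inr hx
          · rintro (hx | hx)
            · exact Or.inl hx
            · exact Or.inr (Or.inr hx)
        rw [he]
        exact ⟨s, hs1, hs2, hs3, hs4⟩
      · -- a free colour for `v`
        set Q := (G.neighborFinset v).image s ∪
          (H.neighborFinset v).image (fun w => g₀ s(v, w)) with hQ
        have hQc : Q.card < (range N).card := by
          rw [card_range]
          refine lt_of_le_of_lt ((card_union_le _ _).trans (add_le_add card_image_le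
            card_image_le)) ?_
          rw [SimpleGraph.card_neighborFinset_eq_degree, SimpleGraph.card_neighborFinset_eq_degree]
          have := hD v
          have := hh v
          omega
        obtain ⟨x, hx, hxQ⟩ := Finset.exists_mem_notMem_of_card_lt_card hQc
        rw [mem_range] at hx
        have hx1 : ∀ w, G.Adj v w → s w ≠ x := by
          intro w hw he
          exact hxQ (mem_union_left _ (mem_image.2 ⟨w, by simpa using hw, he⟩))
        have hx2 : ∀ w, H.Adj v w → g₀ s(v, w) ≠ x := by
          intro w hw he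
          exact hxQ (mem_union_right _ (mem_image.2 ⟨w, by simpa using hw, he⟩))
        have hmem : ∀ u, u ∈ S ∪ insert v T → u ≠ v → u ∈ S ∪ T := by
          intro u hu hne
          simp only [mem_union, mem_insert] at hu ⊢
          rcases hu with hu | hu | hu
          · exact Or.inl hu
          · exact absurd hu hne
          · exact Or.inr hu
        refine ⟨Function.update s v x, ?_, ?_, ?_, ?_⟩
        · intro u hu
          by_cases huv : u = v
          · subst huv; simpa using hx
          · rw [Function.update_of_ne huv]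
            exact hs1 u (hmem u hu huv)
        · intro u hu
          have huv : u ≠ v := fun he => hvS (he ▸ hu)
          rw [Function.update_of_ne huv]
          exact hs2 u hu
        · intro u hu w hw huw
          by_cases huv : u = v
          · subst huv
            have hwu : w ≠ u := huw.ne'
            rw [Function.update_self, Function.update_of_ne hwu]
            exact (hx1 w huw).symm
          · by_cases hwv : w = v
            · subst hwv
              rw [Function.update_self, Function.update_of_ne huv]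
              exact hx1 u huw.symm
            · rw [Function.update_of_ne huv, Function.update_of_ne hwv]
              exact hs3 u (hmem u hu huv) w (hmem w hw hwv) huw
        · intro u hu w huw
          by_cases huv : u = v
          · subst huv
            rw [Function.update_self]
            exact hx2 w huw
          · rw [Function.update_of_ne huv]
            exact hs4 u (hmem u hu huv) w huw
  obtain ⟨s, hs1, hs2, hs3, hs4⟩ := key univ
  exact ⟨s, fun v => hs1 v (by simp), hs2, fun u v => hs3 u (by simp) v (by simp),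
    fun u v => hs4 u (by simp) v⟩

/-- **Extension with `Δ + O(h + (1 + log h)² log Δ)` colours.**  Let `G` be a finite simple graph
in which every vertex has at most `D` neighbours, let `H` be a subgraph (its edges are the
precoloured edges) in which every vertex has at most `h` neighbours, and let `S` be any set of
vertices (the precoloured vertices).  Let `f₀` and `g₀` be colourings with `N` colours such that
vertices of `S` which are adjacent in `G` have different colours, edges of `H` with a common
endpoint have different colours, and edges of `H` have colours different from the colours of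
their endpoints in `S`.  If `N ≥ D + 81 + 34 h + (88 + 40 (⌊log₂ (h + 1)⌋ + 5)²) log (D + 1)`, then
`G` has a total colouring with `N` colours which agrees with `f₀` on `S` and with `g₀` on the
edges of `H`. -/
theorem result {V : Type} [Fintype V] (G H : SimpleGraph V) (_hHG : H ≤ G) (D h N : ℕ)
    (hD : ∀ v, (G.neighborSet v).ncard ≤ D) (hh : ∀ v, (H.neighborSet v).ncard ≤ h)
    (hN : (D : ℝ) + 81 + 34 * h + (88 + 40 * (Nat.log 2 (h + 1) + 5) ^ 2) * Real.log (D + 1) ≤ N)
    (S : Set V) (f₀ : V → Fin N) (g₀ : Sym2 V → Fin N)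
    (h1 : ∀ u ∈ S, ∀ v ∈ S, G.Adj u v → f₀ u ≠ f₀ v)
    (h2 : ∀ u v w, H.Adj u v → H.Adj u w → v ≠ w → g₀ s(u, v) ≠ g₀ s(u, w))
    (h3 : ∀ u ∈ S, ∀ v, H.Adj u v → g₀ s(u, v) ≠ f₀ u) :
    ∃ (f : V → Fin N) (g : Sym2 V → Fin N), IsTotalColoring G f g ∧ (∀ v ∈ S, f v = f₀ v) ∧
      ∀ u v, H.Adj u v → g s(u, v) = g₀ s(u, v) := by
  classical
  have hdeg : ∀ (K : SimpleGraph V) (d : ℕ), (∀ v, (K.neighborSet v).ncard ≤ d) →
      ∀ v, K.degree v ≤ d := by
    intro K d hK v
    have h1 := hK v
    rwa [← SimpleGraph.coe_neighborFinset, Set.ncard_coe_finset] at h1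
  have hDG := hdeg G D hD
  have hhH := hdeg H h hh
  have hlog0 : 0 ≤ Real.log ((D : ℝ) + 1) :=
    Real.log_nonneg (by have : (0 : ℝ) ≤ D := Nat.cast_nonneg _; linarith)
  have hNlt : D + h < N := by
    have h4 : ((D + h : ℕ) : ℝ) < N := by
      push_cast
      have h5 : (0 : ℝ) ≤ (88 + 40 * (((Nat.log 2 (h + 1) : ℕ) : ℝ) + 5) ^ 2) *
          Real.log (D + 1) := by positivity
      have h6 : (0 : ℝ) ≤ h := Nat.cast_nonneg _
      linarith
    exact_mod_cast h4
  obtain ⟨s, hs1, hs2, hs3, hs4⟩ := vertices G H D h N hDG hhH hNlt S.toFinset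
    (fun v => (f₀ v : ℕ)) (fun e => (g₀ e : ℕ)) (fun v _ => (f₀ v).2)
    (fun u hu v hv huv he => h1 u (by simpa using hu) v (by simpa using hv) huv (Fin.ext he))
    (fun u hu v huv he => h3 u (by simpa using hu) v huv (Fin.ext he))
  -- the forbidden colours of the other edges
  let A : V → Finset ℕ := fun v =>
    insert (s v) ((H.neighborFinset v).image fun w => (g₀ s(v, w) : ℕ))
  have hA : ∀ v, (A v).card ≤ h + 1 := by
    intro v
    refine (card_insert_le _ _).trans (Nat.succ_le_succ (card_image_le.trans ?_))
    rw [SimpleGraph.card_neighborFinset_eq_degree]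
    exact hhH v
  let F : Sym2 V → Finset ℕ := fun e => (univ.filter fun v => v ∈ e).biUnion A
  have hFmem : ∀ u v x, x ∈ A u → x ∈ F s(u, v) := by
    intro u v x hx
    exact mem_biUnion.2 ⟨u, by simp, hx⟩
  have hF : ∀ e ∈ (G \ H).edgeSet, (F e).card ≤ 2 * (h + 1) := by
    intro e he
    induction e using Sym2.ind with
    | _ a b =>
    have h4 : (univ.filter fun v => v ∈ s(a, b)) ⊆ {a, b} := by
      intro x hx
      simpa using hx
    refine card_biUnion_le.trans ((sum_le_sum fun v _ => hA v).trans ?_)
    rw [sum_const, smul_eq_mul]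
    exact Nat.mul_le_mul_right _ ((card_le_card h4).trans card_le_two)
  have hlog2 : Nat.log 2 (2 * (h + 1)) = Nat.log 2 (h + 1) + 1 := by
    rw [mul_comm]
    exact Nat.log_mul_base (by norm_num) (by omega)
  obtain ⟨c, hc1, hc2⟩ := Pool.Agent.V11298.EC.forb (G \ H) D (2 * (h + 1)) N (by omega)
    (fun v => (SimpleGraph.degree_le_of_le sdiff_le).trans (hDG v)) F hF (by
      rw [hlog2]
      push_cast
      have h5 : ((Nat.log 2 (h + 1) : ℕ) : ℝ) + 1 + 4 = (Nat.log 2 (h + 1) : ℕ) + 5 := by ring
      rw [h5]
      linarith)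
  have hcH : ∀ u v, G.Adj u v → ¬ H.Adj u v → c s(u, v) < N ∧ c s(u, v) ∉ F s(u, v) := by
    intro u v h4 h5
    exact hc1 s(u, v) ((SimpleGraph.sdiff_adj _ _ _ _).2 ⟨h4, h5⟩)
  let c' : Sym2 V → ℕ := fun e => if e ∈ H.edgeSet then (g₀ e : ℕ) else
    if e ∈ G.edgeSet then c e else 0
  have hc'H : ∀ u v, H.Adj u v → c' s(u, v) = g₀ s(u, v) := by
    intro u v h4
    have : s(u, v) ∈ H.edgeSet := h4
    simp only [c', if_pos this]
  have hc'G : ∀ u v, G.Adj u v → ¬ H.Adj u v → c' s(u, v) = c s(u, v) := by
    intro u v h4 h5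
    have h6 : s(u, v) ∈ G.edgeSet := h4
    have h7 : s(u, v) ∉ H.edgeSet := h5
    simp only [c', if_neg h7, if_pos h6]
  have hN0 : 0 < N := by omega
  have hc'N : ∀ e, c' e < N := by
    intro e
    by_cases h4 : e ∈ H.edgeSet
    · simp only [c', if_pos h4]
      exact (g₀ e).2
    · by_cases h5 : e ∈ G.edgeSet
      · simp only [c', if_neg h4, if_pos h5]
        exact (hc1 e (by
          rw [SimpleGraph.edgeSet_sdiff]
          exact ⟨h5, h4⟩)).1
      · simp only [c', if_neg h4, if_neg h5]
        exact hN0
  -- colours of edges at a vertex which are not in `H`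
  have havoid : ∀ u v, G.Adj u v → ¬ H.Adj u v → c s(u, v) ≠ s u ∧
      ∀ w, H.Adj u w → c s(u, v) ≠ g₀ s(u, w) := by
    intro u v h4 h5
    have h6 := (hcH u v h4 h5).2
    refine ⟨fun he => h6 (hFmem u v _ (he ▸ mem_insert_self _ _)), ?_⟩
    intro w hw he
    refine h6 (hFmem u v _ (mem_insert_of_mem (mem_image.2 ⟨w, by simpa using hw, he.symm⟩)))
  refine ⟨fun v => ⟨s v, hs1 v⟩, fun e => ⟨c' e, hc'N e⟩, ⟨?_, ?_, ?_⟩, ?_, ?_⟩
  · intro u v huv he
    exact hs3 u v huv (congrArg Fin.val he)
  · intro u v w huv huw hvw he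
    have he' : c' s(u, v) = c' s(u, w) := congrArg Fin.val he
    by_cases hv : H.Adj u v
    · by_cases hw : H.Adj u w
      · rw [hc'H u v hv, hc'H u w hw] at he'
        exact h2 u v w hv hw hvw (Fin.ext he')
      · rw [hc'H u v hv, hc'G u w huw hw] at he'
        exact (havoid u w huw hw).2 v hv he'.symm
    · by_cases hw : H.Adj u w
      · rw [hc'G u v huv hv, hc'H u w hw] at he'
        exact (havoid u v huv hv).2 w hw he'
      · rw [hc'G u v huv hv, hc'G u w huw hw] at he'
        exact hc2 u v w ((SimpleGraph.sdiff_adj _ _ _ _).2 ⟨huv, hv⟩)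
          ((SimpleGraph.sdiff_adj _ _ _ _).2 ⟨huw, hw⟩) hvw he'
  · intro u v huv he
    have he' : c' s(u, v) = s u := congrArg Fin.val he
    by_cases hv : H.Adj u v
    · rw [hc'H u v hv] at he'
      exact hs4 u v hv he'
    · rw [hc'G u v huv hv] at he'
      exact (havoid u v huv hv).1 he'
  · intro v hv
    exact Fin.ext (hs2 v (by simpa using hv))
  · intro u v huv
    exact Fin.ext (hc'H u v huv)

end Pool.Agent.Results.MP_db9399_co.LogarithmicExtension
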