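import Mathlib
import Pool.Agent.V1126.TC.Main

set_option autoImplicit false

/-!
# Total list colourings of sparse graphs extending a precoloured distance-3 matching
-/

namespace Pool.Agent.Results.MP_db9399_co.SparseLists

open Finset

/-- The colours `c` of the vertices and `d` of the edges form a total colouring of `G`: adjacent
vertices get different colours, distinct edges with a common end get different colours, and an edge
gets a colour different from the colours of its ends. (Values of `d` at pairs that are not edges of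
`G` play no role.) -/
structure IsTotalColoring {V : Type} (G : SimpleGraph V) (c : V → ℕ) (d : Sym2 V → ℕ) :
    Prop where
  vert : ∀ u v, G.Adj u v → c u ≠ c v
  edge : ∀ u v w, G.Adj u v → G.Adj u w → v ≠ w → d s(u, v) ≠ d s(u, w)
  inc : ∀ u v, G.Adj u v → d s(u, v) ≠ c u

/-- `H` (with vertex set `H.support`) is a distance-3 matching in `G`. -/
structure IsDistThreeMatching {V : Type} (G H : SimpleGraph V) : Prop where
  le : H ≤ G
  matching : ∀ u v w, H.Adj u v → H.Adj u w → v = w
  dist : ∀ u ∈ H.support, ∀ v ∈ H.support, u ≠ v → ¬ H.Adj u v → 3 ≤ G.edist u v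

/-- Whenever every vertex and every edge of `G` has a list of at least `k` colours, every total
colouring of `H` (with any colours) extends to a total colouring of `G` in which the vertices and
edges outside `H` get colours from their lists. -/
def ListExtends {V : Type} (G H : SimpleGraph V) (k : ℕ) : Prop :=
  ∀ (L : V → Finset ℕ) (M : Sym2 V → Finset ℕ), (∀ v, k ≤ (L v).card) →
    (∀ e ∈ G.edgeSet, k ≤ (M e).card) →
    ∀ (c : V → ℕ) (d : Sym2 V → ℕ), IsTotalColoring H c d →
      ∃ (c' : V → ℕ) (d' : Sym2 V → ℕ), IsTotalColoring G c' d' ∧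
        (∀ v ∈ H.support, c' v = c v) ∧ (∀ e ∈ H.edgeSet, d' e = d e) ∧
        (∀ v, v ∉ H.support → c' v ∈ L v) ∧
        ∀ e ∈ G.edgeSet, e ∉ H.edgeSet → d' e ∈ M e

theorem dg_succ_le {V : Type} [Fintype V] {F F' : SimpleGraph V}
    (hF : ∀ a b, F'.Adj a b → F.Adj a b) {u v : V} (h1 : F.Adj u v) (h2 : ¬ F'.Adj u v) :
    V1126.TC.dg F' u + 1 ≤ V1126.TC.dg F u := by
  classical
  unfold V1126.TC.dg
  refine Finset.card_lt_card ?_
  rw [Finset.ssubset_iff_of_subset (fun w hw => by
    rw [Finset.mem_filter] at hw ⊢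
    exact ⟨hw.1, hF _ _ hw.2⟩)]
  exact ⟨v, by simp [h1], by simp [h2]⟩

theorem sp_of {V : Type} {F : SimpleGraph V} [DecidableRel F.Adj] {m : ℕ}
    (h : ∀ X : Finset V, X.Nonempty →
      ∑ v ∈ X, (X.filter (fun w => F.Adj v w)).card < m * X.card) : V1126.TC.Sp F m := by
  intro X hX
  refine lt_of_le_of_lt (le_of_eq (Finset.sum_congr rfl fun v _ => ?_)) (h X hX)
  congr

/-- Let `m ≥ 2`, let `G` be a finite simple graph all of whose nonempty induced subgraphs have
average degree less than `m`, and let `H` be a distance-3 matching in `G`. If `k + 2 ≥ 4 m` and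
either `k ≥ Δ(G) + 2` and `2 k ≥ m² + m + 6`, or `k ≥ Δ(G) + 1` and `2 k ≥ m² + 3 m`, then every
total colouring of `H` extends to a total colouring of `G` from arbitrary lists of size `k`. -/
theorem result {V : Type} [Fintype V] (G H : SimpleGraph V) [DecidableRel G.Adj] (m k : ℕ)
    (hm : 2 ≤ m)
    (hmad : ∀ X : Finset V, X.Nonempty →
      ∑ v ∈ X, (X.filter (fun w => G.Adj v w)).card < m * X.card)
    (hH : IsDistThreeMatching G H) (hk : 4 * m ≤ k + 2)
    (hkD : (G.maxDegree + 2 ≤ k ∧ m ^ 2 + m + 6 ≤ 2 * k) ∨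
      (G.maxDegree + 1 ≤ k ∧ m ^ 2 + 3 * m ≤ 2 * k)) :
    ListExtends G H k := by
  classical
  intro L M hL hM c d hcd
  -- the two cases in one
  obtain ⟨s, D, hs, hD, hkD', hΔ⟩ : ∃ s D : ℕ, s ≤ 1 ∧
      m * m + 3 * m ≤ 2 * D + 2 + s * (2 * m - 4) ∧ D + 1 + s = k ∧ G.maxDegree ≤ D := by
    rcases hkD with ⟨h1, h2⟩ | ⟨h1, h2⟩
    · refine ⟨1, k - 2, le_rfl, ?_, by omega, by omega⟩
      rw [pow_two] at h2
      omega
    · refine ⟨0, k - 1, by omega, ?_, by omega, by omega⟩
      rw [pow_two] at h2
      omega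
  set P : Finset V := univ.filter (fun v => v ∈ H.support) with hP
  have memP : ∀ v, v ∈ P ↔ v ∈ H.support := fun v => by simp [hP]
  have adjP : ∀ u v, H.Adj u v → u ∈ P := fun u v h => (memP u).2 ⟨v, h⟩
  -- distances
  have d1 : ∀ u ∈ P, ∀ v ∈ P, G.Adj u v → H.Adj u v := by
    intro u hu v hv huv
    by_contra hn
    have h3 := hH.dist u ((memP u).1 hu) v ((memP v).1 hv) huv.ne hn
    have h4 := SimpleGraph.Walk.edist_le (SimpleGraph.Walk.cons huv SimpleGraph.Walk.nil)
    have h5 := h3.trans h4
    simp only [SimpleGraph.Walk.length_cons, SimpleGraph.Walk.length_nil] at h5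
    norm_cast at h5
  have d2 : ∀ u ∈ P, ∀ v ∈ P, ∀ w, G.Adj w u → G.Adj w v → u ≠ v → H.Adj u v := by
    intro u hu v hv w h1 h2 huv
    by_contra hn
    have h3 := hH.dist u ((memP u).1 hu) v ((memP v).1 hv) huv hn
    have h4 := SimpleGraph.Walk.edist_le
      (SimpleGraph.Walk.cons h1.symm (SimpleGraph.Walk.cons h2 SimpleGraph.Walk.nil))
    have h5 := h3.trans h4
    simp only [SimpleGraph.Walk.length_cons, SimpleGraph.Walk.length_nil] at h5
    norm_cast at h5
  -- the rest of the graph
  let G' : SimpleGraph V :=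
    { Adj := fun a b => G.Adj a b ∧ ¬ H.Adj a b
      symm := ⟨fun _ _ h => ⟨h.1.symm, fun h' => h.2 h'.symm⟩⟩
      loopless := ⟨fun a h => G.loopless.irrefl a h.1⟩ }
  have hG' : ∀ a b, G'.Adj a b ↔ G.Adj a b ∧ ¬ H.Adj a b := fun a b => Iff.rfl
  set LV : V → Finset ℕ := fun v => L v \ (P.filter (fun p => G.Adj v p)).image c with hLVd
  set bad : V → Finset ℕ := fun u => if u ∈ P then
    insert (c u) ((univ.filter (fun w => H.Adj u w)).image (fun w => d s(u, w))) else ∅ with hbad
  have hbadc : ∀ u, (bad u).card ≤ 2 := by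
    intro u
    simp only [hbad]
    split_ifs with hu
    · have h1 := Finset.card_insert_le (c u)
        ((univ.filter (fun w => H.Adj u w)).image (fun w => d s(u, w)))
      have h2 := Finset.card_image_le (s := univ.filter (fun w => H.Adj u w))
        (f := fun w => d s(u, w))
      have h3 : (univ.filter (fun w => H.Adj u w)).card ≤ 1 := by
        rw [Finset.card_le_one]
        intro a ha b hb
        rw [Finset.mem_filter] at ha hb
        exact hH.matching u a b ha.2 hb.2
      omega
    · simp
  have hbad0 : ∀ u, u ∉ P → bad u = ∅ := fun u hu => by simp [hbad, hu]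
  have hbad1 : ∀ u, u ∈ P → c u ∈ bad u := fun u hu => by simp [hbad, hu]
  have hbad2 : ∀ u w, H.Adj u w → d s(u, w) ∈ bad u := by
    intro u w h
    simp only [hbad, adjP u w h, if_true]
    exact Finset.mem_insert_of_mem (Finset.mem_image.2 ⟨w, by simp [h], rfl⟩)
  set LE : V → V → Finset ℕ := fun u v =>
    (if G.Adj u v then M s(u, v) else Finset.range k) \ (bad u ∪ bad v) with hLEd
  have hMk : ∀ u v, k ≤ (if G.Adj u v then M s(u, v) else Finset.range k).card := by
    intro u v
    split_ifs with h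
    · exact hM _ h
    · simp
  have hLE : ∀ u v, LE u v = LE v u := by
    intro u v
    simp only [hLEd]
    rw [Finset.union_comm, Sym2.eq_swap]
    simp only [G.adj_comm u v]
  have hLV : ∀ v, v ∉ P → 2 * m - 1 ≤ (LV v).card := by
    intro v hv
    have h1 := Finset.le_card_sdiff ((P.filter (fun p => G.Adj v p)).image c) (L v)
    have h2 := Finset.card_image_le (s := P.filter (fun p => G.Adj v p)) (f := c)
    have h3 : (P.filter (fun p => G.Adj v p)).card ≤ 2 := by
      by_contra hcon
      rw [not_le, Finset.two_lt_card] at hcon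
      obtain ⟨p, hp, q, hq, r, hr, hpq, hpr, hqr⟩ := hcon
      rw [Finset.mem_filter] at hp hq hr
      exact hqr (hH.matching p q r (d2 p hp.1 q hq.1 v hp.2 hq.2 hpq)
        (d2 p hp.1 r hr.1 v hp.2 hr.2 hpr))
    have h4 := hL v
    simp only [hLVd]
    omega
  have hLE1 : ∀ u v, u ∉ P → v ∉ P → D + 1 + s ≤ (LE u v).card := by
    intro u v hu hv
    simp only [hLEd, hbad0 u hu, hbad0 v hv, Finset.union_empty, Finset.sdiff_empty, hkD']
    exact hMk u v
  have hLE2 : ∀ u v, ¬ (u ∈ P ∧ v ∈ P) → D + s ≤ (LE u v).card + 1 := by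
    intro u v huv
    have h1 : (bad u ∪ bad v).card ≤ 2 := by
      by_cases hu : u ∈ P
      · have hv : v ∉ P := fun hv => huv ⟨hu, hv⟩
        rw [hbad0 v hv, Finset.union_empty]
        exact hbadc u
      · rw [hbad0 u hu, Finset.empty_union]
        exact hbadc v
    have h2 := Finset.le_card_sdiff (bad u ∪ bad v)
      (if G.Adj u v then M s(u, v) else Finset.range k)
    have h3 := hMk u v
    simp only [hLEd]
    omega
  have hdgG : ∀ v, V1126.TC.dg G v ≤ D := by
    intro v
    have h1 := G.degree_le_maxDegree v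
    have h2 : V1126.TC.dg G v = G.degree v := by
      rw [V1126.TC.dg, ← SimpleGraph.card_neighborFinset_eq_degree,
        SimpleGraph.neighborFinset_eq_filter]
      congr
    omega
  have hsub : ∀ a b, G'.Adj a b → G.Adj a b := fun a b h => h.1
  obtain ⟨cV, cE, hcol⟩ := V1126.TC.reduced (m := m) (D := D) (s := s) hm hs hD (by omega) P LV LE
    hLE hLV hLE1 hLE2 _ G' rfl (fun v => (V1126.TC.dg_mono hsub v).trans (hdgG v))
    (by
      intro p hp
      obtain ⟨q, hq⟩ := (memP p).1 hp
      exact (dg_succ_le hsub (hH.le hq) (fun h => h.2 hq)).trans (hdgG p))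
    (fun u hu v hv h => h.2 (d1 u hu v hv h.1))
    (by
      intro y p hp q hq r hr h1 h2 h3
      by_cases hpq : p = q
      · exact Or.inl hpq
      · by_cases hpr : p = r
        · exact Or.inr (Or.inl hpr)
        · exact Or.inr (Or.inr (hH.matching p q r (d2 p hp q hq y h1.1 h2.1 hpq)
            (d2 p hp r hr y h1.1 h3.1 hpr))))
    ((sp_of hmad).mono hsub)
  -- the colouring
  have hsym : ∀ u v, (fun u v => if G'.Adj u v then cE u v else 0) u v =
      (fun u v => if G'.Adj u v then cE u v else 0) v u := by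
    intro u v
    show (if G'.Adj u v then cE u v else 0) = (if G'.Adj v u then cE v u else 0)
    by_cases h : G'.Adj u v
    · rw [if_pos h, if_pos h.symm]
      exact hcol.sym u v h
    · rw [if_neg h, if_neg (fun h' => h h'.symm)]
  set d' : Sym2 V → ℕ := fun e => if e ∈ H.edgeSet then d e else
    Sym2.lift ⟨fun u v => if G'.Adj u v then cE u v else 0, hsym⟩ e with hd'
  have hd1 : ∀ u v, H.Adj u v → d' s(u, v) = d s(u, v) := by
    intro u v h
    simp only [hd']
    rw [if_pos (by rw [SimpleGraph.mem_edgeSet]; exact h)]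
  have hd2 : ∀ u v, G.Adj u v → ¬ H.Adj u v → d' s(u, v) = cE u v := by
    intro u v h h'
    simp only [hd']
    rw [if_neg (by rw [SimpleGraph.mem_edgeSet]; exact h'), Sym2.lift_mk]
    exact if_pos ⟨h, h'⟩
  have hcE : ∀ u v, G.Adj u v → ¬ H.Adj u v → cE u v ∈ M s(u, v) ∧ cE u v ∉ bad u := by
    intro u v h h'
    have h1 := hcol.le u v ⟨h, h'⟩
    simp only [hLEd] at h1
    rw [if_pos h, Finset.mem_sdiff, Finset.mem_union, not_or] at h1
    exact ⟨h1.1, h1.2.1⟩
  refine ⟨fun v => if v ∈ P then c v else cV v, d', ⟨?_, ?_, ?_⟩, ?_, ?_, ?_, ?_⟩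
  · have key : ∀ u v, G.Adj u v → u ∈ P → v ∉ P → c u ≠ cV v := by
      intro u v huv hu hv h
      have h1 := hcol.lv v hv
      simp only [hLVd] at h1
      rw [Finset.mem_sdiff] at h1
      exact h1.2 (Finset.mem_image.2 ⟨u, by simp [hu, huv.symm], h⟩)
    intro u v huv
    by_cases hu : u ∈ P
    · by_cases hv : v ∈ P
      · simp only [hu, hv, if_true]
        exact hcd.vert u v (d1 u hu v hv huv)
      · simp only [hu, hv, if_true, if_false]
        exact key u v huv hu hv
    · by_cases hv : v ∈ P
      · simp only [hu, hv, if_true, if_false]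
        exact (key v u huv.symm hv hu).symm
      · simp only [hu, hv, if_false]
        exact hcol.vv u v ⟨huv, fun h => hu (adjP u v h)⟩ hu hv
  · intro u v w huv huw hvw
    by_cases h1 : H.Adj u v
    · by_cases h2 : H.Adj u w
      · exact absurd (hH.matching u v w h1 h2) hvw
      · rw [hd1 u v h1, hd2 u w huw h2]
        intro h
        exact (hcE u w huw h2).2 (h ▸ hbad2 u v h1)
    · by_cases h2 : H.Adj u w
      · rw [hd1 u w h2, hd2 u v huv h1]
        intro h
        exact (hcE u v huv h1).2 (h ▸ hbad2 u w h2)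
      · rw [hd2 u v huv h1, hd2 u w huw h2]
        exact hcol.ee u v w ⟨huv, h1⟩ ⟨huw, h2⟩ hvw
  · intro u v huv
    by_cases h1 : H.Adj u v
    · simp only [adjP u v h1, if_true, hd1 u v h1]
      exact hcd.inc u v h1
    · rw [hd2 u v huv h1]
      by_cases hu : u ∈ P
      · simp only [hu, if_true]
        intro h
        exact (hcE u v huv h1).2 (h ▸ hbad1 u hu)
      · simp only [hu, if_false]
        exact (hcol.ve u v ⟨huv, h1⟩ hu).symm
  · intro v hv
    simp only [(memP v).2 hv, if_true]
  · intro e he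
    simp only [hd']
    rw [if_pos he]
  · intro v hv
    have hv' : v ∉ P := fun h => hv ((memP v).1 h)
    simp only [hv', if_false]
    have h1 := hcol.lv v hv'
    simp only [hLVd] at h1
    exact (Finset.mem_sdiff.1 h1).1
  · intro e
    induction e using Sym2.ind with
    | _ u v =>
      intro he hn
      rw [SimpleGraph.mem_edgeSet] at he hn
      rw [hd2 u v he hn]
      exact (hcE u v he hn).1

end Pool.Agent.Results.MP_db9399_co.SparseLists
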